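import Mathlib
import Pool.Agent.U398.MV.Stm

set_option autoImplicit false

/-!
# Project MV, package NB: pair counts in a block from the number variance
-/

namespace Pool.Agent.U501.MV.NB

open MeasureTheory Filter Topology Set Pool.Agent.U398.MV

noncomputable section

/-- indicator of the window -/
def ind (h x t : ℝ) : ℝ := (Ico (x - h) x).indicator (fun _ => (1 : ℝ)) t

lemma ind_nonneg (h x t : ℝ) : 0 ≤ ind h x t := by
  unfold ind
  exact indicator_nonneg (fun _ _ => zero_le_one) _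

lemma ind_le_one (h x t : ℝ) : ind h x t ≤ 1 := by
  unfold ind
  by_cases ht : t ∈ Ico (x - h) x
  · rw [indicator_of_mem ht]
  · rw [indicator_of_notMem ht]; exact zero_le_one

lemma ind_eq (h x t : ℝ) : ind h x t = if t < x ∧ x ≤ t + h then 1 else 0 := by
  unfold ind
  by_cases ht : t ∈ Ico (x - h) x
  · rw [indicator_of_mem ht, if_pos]
    exact ⟨ht.2, by linarith [ht.1]⟩
  · rw [indicator_of_notMem ht, if_neg]
    rintro ⟨h1, h2⟩
    exact ht ⟨by linarith, h1⟩

lemma ind_mul (h x y t : ℝ) : ind h x t * ind h y t =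
    (Ico (max (x - h) (y - h)) (min x y)).indicator (fun _ => (1 : ℝ)) t := by
  unfold ind
  rw [← Ico_inter_Ico]
  by_cases h1 : t ∈ Ico (x - h) x <;> by_cases h2 : t ∈ Ico (y - h) y <;>
    simp [indicator, h1, h2, mem_inter_iff]

lemma integrable_indic (a b : ℝ) : Integrable ((Ico a b).indicator (fun _ => (1 : ℝ))) := by
  rw [integrable_indicator_iff measurableSet_Ico]
  exact integrableOn_const (by simp)

lemma integral_indic (a b : ℝ) : ∫ t, (Ico a b).indicator (fun _ => (1 : ℝ)) t = max 0 (b - a) := by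
  rw [integral_indicator measurableSet_Ico, setIntegral_const, smul_eq_mul, mul_one, Real.volume_real_Ico]
  exact max_comm _ _

lemma integrable_ind (h x : ℝ) : Integrable (ind h x) := integrable_indic _ _

lemma integral_ind (h x : ℝ) (hh : 0 ≤ h) : ∫ t, ind h x t = h := by
  have := integral_indic (x - h) x
  unfold ind
  rw [this]
  rw [max_eq_right (by linarith)]
  ring

lemma integrable_ind_mul (h x y : ℝ) : Integrable (fun t => ind h x t * ind h y t) := by
  simp_rw [ind_mul]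
  exact integrable_indic _ _

lemma integral_ind_mul (h x y : ℝ) : ∫ t, ind h x t * ind h y t = max 0 (h - |x - y|) := by
  simp_rw [ind_mul]
  rw [integral_indic]
  congr 1
  rcases le_total x y with hxy | hxy
  · rw [max_eq_right (by linarith), min_eq_left hxy, abs_of_nonpos (by linarith)]
    ring
  · rw [max_eq_left (by linarith), min_eq_right hxy, abs_of_nonneg (by linarith)]
    ring

variable {ι : Type}

/-- the mass of the window -/
def G (A : Finset ι) (m x : ι → ℝ) (h t : ℝ) : ℝ := ∑ i ∈ A, m i * ind h (x i) t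

/-- the triangle pair sum -/
def Pk (A : Finset ι) (m x : ι → ℝ) (h : ℝ) : ℝ :=
  ∑ i ∈ A, ∑ j ∈ A, m i * m j * max 0 (h - |x i - x j|)

/-- number of pairs up to distance `h` -/
def Sk (A : Finset ι) (m x : ι → ℝ) (h : ℝ) : ℝ :=
  ∑ i ∈ A, ∑ j ∈ A, m i * m j * (if |x i - x j| ≤ h then 1 else 0)

def Dk (A : Finset ι) (m x : ι → ℝ) : ℝ :=
  ∑ i ∈ A, ∑ j ∈ A, m i * m j * (if x i = x j then 1 else 0)

def Qk (A : Finset ι) (m x : ι → ℝ) (h : ℝ) : ℝ :=
  ∑ i ∈ A, ∑ j ∈ A, m i * m j * (if 0 < x i - x j ∧ x i - x j ≤ h then 1 else 0)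

lemma G_nonneg {A : Finset ι} {m : ι → ℝ} (x : ι → ℝ) (hm : ∀ i, 0 ≤ m i) (h t : ℝ) :
    0 ≤ G A m x h t :=
  Finset.sum_nonneg fun i _ => mul_nonneg (hm i) (ind_nonneg _ _ _)

lemma integrable_G (A : Finset ι) (m x : ι → ℝ) (h : ℝ) : Integrable (G A m x h) := by
  unfold G
  exact integrable_finsetSum _ fun i _ => (integrable_ind h (x i)).const_mul (m i)

lemma G_mul_G (A : Finset ι) (m x y : ι → ℝ) (h t : ℝ) : G A m x h t * G A m y h t =
    ∑ i ∈ A, ∑ j ∈ A, m i * m j * (ind h (x i) t * ind h (y j) t) := by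
  unfold G
  rw [Finset.sum_mul_sum]
  refine Finset.sum_congr rfl fun i _ => Finset.sum_congr rfl fun j _ => ?_
  ring

lemma integrable_G_mul (A : Finset ι) (m x y : ι → ℝ) (h : ℝ) :
    Integrable (fun t => G A m x h t * G A m y h t) := by
  simp_rw [G_mul_G]
  exact integrable_finsetSum _ fun i _ => integrable_finsetSum _ fun j _ =>
    (integrable_ind_mul h (x i) (y j)).const_mul _

lemma integral_G_mul (A : Finset ι) (m x y : ι → ℝ) (h : ℝ) :
    ∫ t, G A m x h t * G A m y h t =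
      ∑ i ∈ A, ∑ j ∈ A, m i * m j * max 0 (h - |x i - y j|) := by
  simp_rw [G_mul_G]
  rw [integral_finsetSum _ fun i _ => integrable_finsetSum _ fun j _ =>
    (integrable_ind_mul h (x i) (y j)).const_mul _]
  refine Finset.sum_congr rfl fun i _ => ?_
  rw [integral_finsetSum _ fun j _ => (integrable_ind_mul h (x i) (y j)).const_mul _]
  refine Finset.sum_congr rfl fun j _ => ?_
  rw [integral_const_mul, integral_ind_mul]

lemma integral_G_sq (A : Finset ι) (m x : ι → ℝ) (h : ℝ) :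
    ∫ t, G A m x h t ^ 2 = Pk A m x h := by
  have := integral_G_mul A m x x h
  unfold Pk
  rw [← this]
  congr 1
  ext t
  ring

lemma integrable_G_sq (A : Finset ι) (m x : ι → ℝ) (h : ℝ) :
    Integrable (fun t => G A m x h t ^ 2) := by
  have := integrable_G_mul A m x x h
  refine this.congr (ae_of_all _ fun t => ?_)
  simp only
  ring

lemma integral_G (A : Finset ι) (m x : ι → ℝ) (h : ℝ) (hh : 0 ≤ h) :
    ∫ t, G A m x h t = h * ∑ i ∈ A, m i := by
  unfold G
  rw [integral_finsetSum _ fun i _ => (integrable_ind h (x i)).const_mul (m i), Finset.mul_sum]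
  refine Finset.sum_congr rfl fun i _ => ?_
  rw [integral_const_mul, integral_ind h (x i) hh]
  ring

/-- shifted triangle sums are largest without shift -/
lemma shift_le (A : Finset ι) (m x : ι → ℝ) (h s : ℝ) :
    ∑ i ∈ A, ∑ j ∈ A, m i * m j * max 0 (h - |x i - s - x j|) ≤ Pk A m x h := by
  have h1 := integral_G_mul A m (fun i => x i - s) x h
  have h2 : Pk A m (fun i => x i - s) h = Pk A m x h := by
    unfold Pk
    refine Finset.sum_congr rfl fun i _ => Finset.sum_congr rfl fun j _ => ?_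
    congr 3
    congr 1
    simp only
    ring
  have h3 : 0 ≤ ∫ t, (G A m (fun i => x i - s) h t - G A m x h t) ^ 2 :=
    integral_nonneg fun t => sq_nonneg _
  have h4 : ∫ t, (G A m (fun i => x i - s) h t - G A m x h t) ^ 2 =
      ∫ t, ((G A m (fun i => x i - s) h t ^ 2 + G A m x h t ^ 2) -
        2 * (G A m (fun i => x i - s) h t * G A m x h t)) := by
    congr 1
    ext t
    ring
  have i1 := integrable_G_sq A m (fun i => x i - s) h
  have i2 := integrable_G_sq A m x h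
  have i3 := (integrable_G_mul A m (fun i => x i - s) x h).const_mul 2
  have h5 : ∫ t, ((G A m (fun i => x i - s) h t ^ 2 + G A m x h t ^ 2) -
      2 * (G A m (fun i => x i - s) h t * G A m x h t)) =
      (∫ t, (G A m (fun i => x i - s) h t ^ 2 + G A m x h t ^ 2)) -
        ∫ t, 2 * (G A m (fun i => x i - s) h t * G A m x h t) := integral_sub (i1.add i2) i3
  rw [h4, h5, integral_add i1 i2, integral_const_mul, integral_G_sq, integral_G_sq, h2, h1] at h3
  linarith

lemma S_le (A : Finset ι) (m x : ι → ℝ) (hm : ∀ i, 0 ≤ m i) (h η : ℝ) (hη : 0 ≤ η) :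
    η * Sk A m x h ≤ Pk A m x (h + η) - Pk A m x h := by
  unfold Sk Pk
  rw [Finset.mul_sum, ← Finset.sum_sub_distrib]
  refine Finset.sum_le_sum fun i _ => ?_
  rw [Finset.mul_sum, ← Finset.sum_sub_distrib]
  refine Finset.sum_le_sum fun j _ => ?_
  have hmm : 0 ≤ m i * m j := mul_nonneg (hm i) (hm j)
  rw [← mul_sub]
  have key : η * (if |x i - x j| ≤ h then (1 : ℝ) else 0) ≤
      max 0 (h + η - |x i - x j|) - max 0 (h - |x i - x j|) := by
    split_ifs with hc
    · rw [max_eq_right (by linarith), max_eq_right (by linarith)]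
      linarith
    · push Not at hc
      rw [max_eq_left (a := (0:ℝ)) (b := h - |x i - x j|) (by linarith)]
      have := le_max_left (0:ℝ) (h + η - |x i - x j|)
      linarith
  calc η * (m i * m j * (if |x i - x j| ≤ h then (1 : ℝ) else 0))
      = m i * m j * (η * (if |x i - x j| ≤ h then (1 : ℝ) else 0)) := by ring
    _ ≤ _ := mul_le_mul_of_nonneg_left key hmm

lemma le_S (A : Finset ι) (m x : ι → ℝ) (hm : ∀ i, 0 ≤ m i) (h η : ℝ) :
    Pk A m x h - Pk A m x (h - η) ≤ η * Sk A m x h := by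
  unfold Sk Pk
  rw [Finset.mul_sum, ← Finset.sum_sub_distrib]
  refine Finset.sum_le_sum fun i _ => ?_
  rw [Finset.mul_sum, ← Finset.sum_sub_distrib]
  refine Finset.sum_le_sum fun j _ => ?_
  have hmm : 0 ≤ m i * m j := mul_nonneg (hm i) (hm j)
  rw [← mul_sub]
  have key : max 0 (h - |x i - x j|) - max 0 (h - η - |x i - x j|) ≤
      η * (if |x i - x j| ≤ h then (1 : ℝ) else 0) := by
    split_ifs with hc
    · have h1 := le_max_right (0:ℝ) (h - η - |x i - x j|)
      rw [max_eq_right (a := (0:ℝ)) (b := h - |x i - x j|) (by linarith)]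
      linarith
    · push Not at hc
      rw [max_eq_left (a := (0:ℝ)) (b := h - |x i - x j|) (by linarith)]
      have := le_max_left (0:ℝ) (h - η - |x i - x j|)
      linarith
  calc m i * m j * (max 0 (h - |x i - x j|) - max 0 (h - η - |x i - x j|))
      ≤ m i * m j * (η * (if |x i - x j| ≤ h then (1 : ℝ) else 0)) :=
        mul_le_mul_of_nonneg_left key hmm
    _ = _ := by ring

lemma D_le (A : Finset ι) (m x : ι → ℝ) (hm : ∀ i, 0 ≤ m i) (η : ℝ) (hη : 0 ≤ η) :
    η * Dk A m x ≤ Pk A m x η := by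
  unfold Dk Pk
  rw [Finset.mul_sum]
  refine Finset.sum_le_sum fun i _ => ?_
  rw [Finset.mul_sum]
  refine Finset.sum_le_sum fun j _ => ?_
  have hmm : 0 ≤ m i * m j := mul_nonneg (hm i) (hm j)
  have key : η * (if x i = x j then (1 : ℝ) else 0) ≤ max 0 (η - |x i - x j|) := by
    split_ifs with hc
    · rw [hc, sub_self, abs_zero, sub_zero, mul_one]
      exact le_max_right _ _
    · rw [mul_zero]; exact le_max_left _ _
  calc η * (m i * m j * (if x i = x j then (1 : ℝ) else 0))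
      = m i * m j * (η * (if x i = x j then (1 : ℝ) else 0)) := by ring
    _ ≤ _ := mul_le_mul_of_nonneg_left key hmm

lemma S_eq (A : Finset ι) (m x : ι → ℝ) (h : ℝ) (hh : 0 ≤ h) :
    Sk A m x h = Dk A m x + 2 * Qk A m x h := by
  have h1 : ∀ i j, m i * m j * (if |x i - x j| ≤ h then (1 : ℝ) else 0) =
      m i * m j * (if x i = x j then 1 else 0) +
      m i * m j * (if 0 < x i - x j ∧ x i - x j ≤ h then 1 else 0) +
      m j * m i * (if 0 < x j - x i ∧ x j - x i ≤ h then 1 else 0) := by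
    intro i j
    rcases lt_trichotomy (x i) (x j) with hij | hij | hij
    · have e1 : ¬ x i = x j := ne_of_lt hij
      have e2 : ¬ (0 < x i - x j ∧ x i - x j ≤ h) := fun hc => by linarith [hc.1]
      rw [if_neg e1, if_neg e2, abs_of_neg (by linarith)]
      by_cases hc : x j - x i ≤ h
      · rw [if_pos (by linarith), if_pos ⟨by linarith, hc⟩]; ring
      · rw [if_neg (by intro hd; exact hc (by linarith)), if_neg (fun hd => hc hd.2)]; ring
    · rw [hij, sub_self, abs_zero, if_pos hh, if_pos rfl, if_neg (by simp)]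
      ring
    · have e1 : ¬ x i = x j := ne_of_gt hij
      have e2 : ¬ (0 < x j - x i ∧ x j - x i ≤ h) := fun hc => by linarith [hc.1]
      rw [if_neg e1, if_neg e2, abs_of_pos (by linarith)]
      by_cases hc : x i - x j ≤ h
      · rw [if_pos hc, if_pos ⟨by linarith, hc⟩]; ring
      · rw [if_neg hc, if_neg (fun hd => hc hd.2)]; ring
  unfold Sk Dk Qk
  simp_rw [h1, Finset.sum_add_distrib]
  rw [Finset.sum_comm (f := fun i j => m j * m i * (if 0 < x j - x i ∧ x j - x i ≤ h then (1 : ℝ) else 0))]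
  ring

lemma Q_mono (A : Finset ι) (m x : ι → ℝ) (hm : ∀ i, 0 ≤ m i) {h h' : ℝ} (hh : h ≤ h') :
    Qk A m x h ≤ Qk A m x h' := by
  unfold Qk
  refine Finset.sum_le_sum fun i _ => Finset.sum_le_sum fun j _ => ?_
  refine mul_le_mul_of_nonneg_left ?_ (mul_nonneg (hm i) (hm j))
  split_ifs with h1 h2 h2
  · exact le_refl _
  · exact absurd ⟨h1.1, h1.2.trans hh⟩ h2
  · exact zero_le_one
  · exact le_refl _

lemma Q_nonneg (A : Finset ι) (m x : ι → ℝ) (hm : ∀ i, 0 ≤ m i) (h : ℝ) : 0 ≤ Qk A m x h := by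
  unfold Qk
  refine Finset.sum_nonneg fun i _ => Finset.sum_nonneg fun j _ =>
    mul_nonneg (mul_nonneg (hm i) (hm j)) ?_
  split_ifs <;> norm_num

lemma D_nonneg (A : Finset ι) (m x : ι → ℝ) (hm : ∀ i, 0 ≤ m i) : 0 ≤ Dk A m x := by
  unfold Dk
  refine Finset.sum_nonneg fun i _ => Finset.sum_nonneg fun j _ =>
    mul_nonneg (mul_nonneg (hm i) (hm j)) ?_
  split_ifs <;> norm_num

/-- pairs at distance in `(s, s + η]` -/
lemma Q_top (A : Finset ι) (m x : ι → ℝ) (hm : ∀ i, 0 ≤ m i) (s η : ℝ) (hη : 0 ≤ η) :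
    η * Qk A m x (s + η) ≤ η * Qk A m x s + Pk A m x (2 * η) := by
  have h1 := shift_le A m x (2 * η) s
  have h2 : η * Qk A m x (s + η) ≤ η * Qk A m x s +
      ∑ i ∈ A, ∑ j ∈ A, m i * m j * max 0 (2 * η - |x i - s - x j|) := by
    unfold Qk
    rw [Finset.mul_sum, Finset.mul_sum, ← Finset.sum_add_distrib]
    refine Finset.sum_le_sum fun i _ => ?_
    rw [Finset.mul_sum, Finset.mul_sum, ← Finset.sum_add_distrib]
    refine Finset.sum_le_sum fun j _ => ?_
    have hmm : 0 ≤ m i * m j := mul_nonneg (hm i) (hm j)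
    have key : η * (if 0 < x i - x j ∧ x i - x j ≤ s + η then (1 : ℝ) else 0) ≤
        η * (if 0 < x i - x j ∧ x i - x j ≤ s then (1 : ℝ) else 0) +
          max 0 (2 * η - |x i - s - x j|) := by
      have h0 := le_max_left (0:ℝ) (2 * η - |x i - s - x j|)
      by_cases hc : 0 < x i - x j ∧ x i - x j ≤ s + η
      · rw [if_pos hc]
        by_cases hd : x i - x j ≤ s
        · rw [if_pos ⟨hc.1, hd⟩]; linarith
        · push Not at hd
          rw [if_neg (fun he => absurd he.2 (not_le.2 hd))]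
          have h3 : |x i - s - x j| ≤ η := by
            rw [abs_le]; constructor <;> linarith [hc.2]
          have h4 := le_max_right (0:ℝ) (2 * η - |x i - s - x j|)
          linarith
      · rw [if_neg hc, if_neg (fun hd => hc ⟨hd.1, by linarith [hd.2]⟩)]
        linarith
    calc η * (m i * m j * (if 0 < x i - x j ∧ x i - x j ≤ s + η then (1 : ℝ) else 0))
        = m i * m j * (η * (if 0 < x i - x j ∧ x i - x j ≤ s + η then (1 : ℝ) else 0)) := by ring
      _ ≤ m i * m j * (η * (if 0 < x i - x j ∧ x i - x j ≤ s then (1 : ℝ) else 0) +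
          max 0 (2 * η - |x i - s - x j|)) := mul_le_mul_of_nonneg_left key hmm
      _ = _ := by ring
  linarith

/-! ### The data -/

section data

variable {Z : Set ι} {x m : ι → ℝ} {F : ℝ → Finset ι} {C1 T0 : ℝ}

lemma G_eq_filter (A : Finset ι) (m x : ι → ℝ) (h t : ℝ) :
    G A m x h t = ∑ i ∈ A.filter (fun i => t < x i ∧ x i ≤ t + h), m i := by
  unfold G
  rw [Finset.sum_filter]
  refine Finset.sum_congr rfl fun i _ => ?_
  rw [ind_eq]
  split_ifs <;> simp

lemma cnt_sub (hP : Pts Z x m F C1 T0) {s t : ℝ} (hst : s ≤ t) :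
    cnt F m t - cnt F m s = ∑ i ∈ (F t).filter (fun i => s < x i), m i := by
  unfold cnt
  rw [← Finset.sum_filter_add_sum_filter_not (F t) (fun i => s < x i) m]
  have : (F t).filter (fun i => ¬ s < x i) = F s := by
    ext i
    rw [Finset.mem_filter, hP.mem, hP.mem, not_lt]
    constructor
    · rintro ⟨⟨h1, h2, _⟩, h4⟩
      exact ⟨h1, h2, h4⟩
    · rintro ⟨h1, h2, h3⟩
      exact ⟨⟨h1, h2, h3.trans hst⟩, h3⟩
  rw [this]
  ring

lemma cnt_window (hP : Pts Z x m F C1 T0) {T t h : ℝ} (hh0 : 0 ≤ h) (hh1 : h ≤ 1) (ht2 : t ≤ 2 * T) :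
    cnt F m (t + h) - cnt F m t = G (F (2 * T + 1)) m x h t := by
  rw [cnt_sub hP (by linarith), G_eq_filter]
  refine Finset.sum_congr ?_ fun _ _ => rfl
  ext i
  rw [Finset.mem_filter, Finset.mem_filter, hP.mem, hP.mem]
  constructor
  · rintro ⟨⟨h1, h2, h3⟩, h4⟩
    exact ⟨⟨h1, h2, by linarith⟩, h4, h3⟩
  · rintro ⟨⟨h1, h2, _⟩, h4, h5⟩
    exact ⟨⟨h1, h2, h5⟩, h4⟩

/-- the points of the block -/
def Ab (F : ℝ → Finset ι) (x : ι → ℝ) (T : ℝ) : Finset ι := (F (2 * T)).filter (fun i => T < x i)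

lemma G_middle (hP : Pts Z x m F C1 T0) {T t h : ℝ} (hh0 : 0 ≤ h) (hh1 : h ≤ 1) (ht1 : T ≤ t)
    (ht2 : t ≤ 2 * T - 1) : G (Ab F x T) m x h t = G (F (2 * T + 1)) m x h t := by
  rw [G_eq_filter, G_eq_filter]
  refine Finset.sum_congr ?_ fun _ _ => rfl
  ext i
  unfold Ab
  rw [Finset.mem_filter, Finset.mem_filter, Finset.mem_filter, hP.mem, hP.mem]
  constructor
  · rintro ⟨⟨⟨h1, h2, h3⟩, h4⟩, h5, h6⟩
    exact ⟨⟨h1, h2, by linarith⟩, h5, h6⟩
  · rintro ⟨⟨h1, h2, _⟩, h5, h6⟩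
    exact ⟨⟨⟨h1, h2, by linarith⟩, by linarith⟩, h5, h6⟩

lemma G_bound (hP : Pts Z x m F C1 T0) {K T t h : ℝ} (hK : C1 ≤ K) (hK1 : 1 ≤ K)
    (hT : Real.exp 4 ≤ T) (hh1 : h ≤ 1) (ht1 : T - 1 ≤ t)
    (ht2 : t ≤ 2 * T) (E : Finset ι) (hE : ∀ i ∈ E, i ∈ Z ∧ 0 < x i) :
    G E m x h t ≤ 2 * K * Real.log T := by
  have hexp : (5:ℝ) ≤ Real.exp 4 := by
    have := Real.add_one_le_exp (4:ℝ); linarith
  have hl : 4 ≤ Real.log T := by
    rw [Real.le_log_iff_exp_le (by linarith)]; exact hT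
  have h2 : (2:ℝ) ≤ t := by linarith
  have h3 := hP.short t h2
  rw [cnt_sub hP (by linarith : t ≤ t + 1)] at h3
  rw [G_eq_filter]
  have h4 : ∑ i ∈ E.filter (fun i => t < x i ∧ x i ≤ t + h), m i ≤
      ∑ i ∈ (F (t + 1)).filter (fun i => t < x i), m i := by
    refine Finset.sum_le_sum_of_subset_of_nonneg ?_ fun i _ _ => hP.nonneg i
    intro i hi
    rw [Finset.mem_filter] at hi ⊢
    rw [hP.mem]
    exact ⟨⟨(hE i hi.1).1, (hE i hi.1).2, by linarith [hi.2.2]⟩, hi.2.1⟩
  have hlt : Real.log t ≤ 2 * Real.log T := by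
    calc Real.log t ≤ Real.log (2 * T) := Real.log_le_log (by linarith) ht2
      _ = Real.log 2 + Real.log T := Real.log_mul (by norm_num) (by linarith)
      _ ≤ 2 * Real.log T := by linarith [Real.log_two_lt_d9]
  have hlt0 : 0 ≤ Real.log t := Real.log_nonneg (by linarith)
  calc _ ≤ _ := h4
    _ ≤ C1 * Real.log t := h3
    _ ≤ K * Real.log t := mul_le_mul_of_nonneg_right hK hlt0
    _ ≤ K * (2 * Real.log T) := mul_le_mul_of_nonneg_left hlt (by linarith)
    _ = _ := by ring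

lemma G_support (hP : Pts Z x m F C1 T0) {T h : ℝ} (hh1 : h ≤ 1) :
    Function.support (G (Ab F x T) m x h) ⊆ Ioc (T - 1) (2 * T) := by
  intro t ht
  rw [Function.mem_support, G_eq_filter] at ht
  obtain ⟨i, hi, _⟩ := Finset.exists_ne_zero_of_sum_ne_zero ht
  unfold Ab at hi
  rw [Finset.mem_filter, Finset.mem_filter, hP.mem] at hi
  obtain ⟨⟨⟨_, _, h3⟩, h4⟩, h5, h6⟩ := hi
  exact ⟨by linarith, by linarith⟩

lemma Ab_mem (hP : Pts Z x m F C1 T0) (T : ℝ) : ∀ i ∈ Ab F x T, i ∈ Z ∧ 0 < x i := by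
  intro i hi
  unfold Ab at hi
  rw [Finset.mem_filter, hP.mem] at hi
  exact ⟨hi.1.1, hi.1.2.1⟩

lemma F_mem (hP : Pts Z x m F C1 T0) (T : ℝ) : ∀ i ∈ F T, i ∈ Z ∧ 0 < x i := by
  intro i hi
  rw [hP.mem] at hi
  exact ⟨hi.1, hi.2.1⟩

lemma abs_int_le {f : ℝ → ℝ} {a b : ℝ} {C : ℝ} (hab : b = a + 1)
    (h : ∀ t, a ≤ t → t ≤ b → |f t| ≤ C) : |∫ t in a..b, f t| ≤ C := by
  have := intervalIntegral.norm_integral_le_of_norm_le_const (a := a) (b := b) (f := f) (C := C)
    (fun t ht => by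
      rw [uIoc_of_le (by linarith)] at ht
      rw [Real.norm_eq_abs]
      exact h t ht.1.le ht.2)
  rw [hab, add_sub_cancel_left, abs_one, mul_one, Real.norm_eq_abs] at this
  rw [hab]
  exact this

/-- comparison of the integrals over the line with the integrals over the block -/
lemma compare (hP : Pts Z x m F C1 T0) {K T h : ℝ} (hK : C1 ≤ K) (hK1 : 1 ≤ K)
    (hT : Real.exp 4 ≤ T) (hh0 : 0 ≤ h) (hh1 : h ≤ 1) (k : ℕ) (hk : k ≠ 0)
    (hi1 : Integrable (fun t => G (Ab F x T) m x h t ^ k))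
    (hi2 : Integrable (fun t => G (F (2 * T + 1)) m x h t ^ k)) :
    |(∫ t, G (Ab F x T) m x h t ^ k) - ∫ t in T..(2 * T), G (F (2 * T + 1)) m x h t ^ k| ≤
      3 * (2 * K * Real.log T) ^ k := by
  have hexp : (5:ℝ) ≤ Real.exp 4 := by
    have := Real.add_one_le_exp (4:ℝ); linarith
  have hsup : Function.support (fun t => G (Ab F x T) m x h t ^ k) ⊆ Ioc (T - 1) (2 * T) := by
    refine Subset.trans ?_ (G_support hP (T := T) hh1)
    intro t ht
    rw [Function.mem_support] at ht ⊢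
    intro h0
    exact ht (by rw [h0, zero_pow hk])
  rw [← intervalIntegral.integral_eq_integral_of_support_subset hsup]
  have hii1 : ∀ a b : ℝ, IntervalIntegrable (fun t => G (Ab F x T) m x h t ^ k) volume a b :=
    fun a b => hi1.intervalIntegrable
  have hii2 : ∀ a b : ℝ, IntervalIntegrable (fun t => G (F (2 * T + 1)) m x h t ^ k) volume a b :=
    fun a b => hi2.intervalIntegrable
  rw [← intervalIntegral.integral_add_adjacent_intervals (hii1 (T - 1) T) (hii1 T (2 * T)),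
    ← intervalIntegral.integral_add_adjacent_intervals (hii1 T (2 * T - 1)) (hii1 (2 * T - 1) (2 * T)),
    ← intervalIntegral.integral_add_adjacent_intervals (hii2 T (2 * T - 1)) (hii2 (2 * T - 1) (2 * T))]
  have hmid : ∫ t in T..(2 * T - 1), G (Ab F x T) m x h t ^ k =
      ∫ t in T..(2 * T - 1), G (F (2 * T + 1)) m x h t ^ k := by
    refine intervalIntegral.integral_congr fun t ht => ?_
    rw [uIcc_of_le (by linarith)] at ht
    rw [G_middle hP hh0 hh1 ht.1 ht.2]
  have b1 : |∫ t in (T - 1)..T, G (Ab F x T) m x h t ^ k| ≤ (2 * K * Real.log T) ^ k := by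
    refine abs_int_le (by ring) fun t h1 h2 => ?_
    have h0 := G_nonneg (A := Ab F x T) x hP.nonneg h t
    rw [abs_of_nonneg (pow_nonneg h0 k)]
    exact pow_le_pow_left₀ h0 (G_bound hP hK hK1 hT hh1 h1 (by linarith) _ (Ab_mem hP T)) k
  have b2 : |∫ t in (2 * T - 1)..(2 * T), G (Ab F x T) m x h t ^ k| ≤ (2 * K * Real.log T) ^ k := by
    refine abs_int_le (by ring) fun t h1 h2 => ?_
    have h0 := G_nonneg (A := Ab F x T) x hP.nonneg h t
    rw [abs_of_nonneg (pow_nonneg h0 k)]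
    exact pow_le_pow_left₀ h0 (G_bound hP hK hK1 hT hh1 (by linarith) h2 _ (Ab_mem hP T)) k
  have b3 : |∫ t in (2 * T - 1)..(2 * T), G (F (2 * T + 1)) m x h t ^ k| ≤
      (2 * K * Real.log T) ^ k := by
    refine abs_int_le (by ring) fun t h1 h2 => ?_
    have h0 := G_nonneg (A := F (2 * T + 1)) x hP.nonneg h t
    rw [abs_of_nonneg (pow_nonneg h0 k)]
    exact pow_le_pow_left₀ h0 (G_bound hP hK hK1 hT hh1 (by linarith) h2 _ (F_mem hP _)) k
  rw [hmid]
  rw [abs_le] at b1 b2 b3 ⊢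
  constructor <;> linarith [b1.1, b1.2, b2.1, b2.2, b3.1, b3.2]

lemma log_sq_le {T : ℝ} (hT : Real.exp 4 ≤ T) : Real.log T ^ 2 ≤ 2 * T := by
  have hpos : 0 < T := lt_of_lt_of_le (Real.exp_pos 4) hT
  have hl : 4 ≤ Real.log T := by
    rw [Real.le_log_iff_exp_le hpos]; exact hT
  have := Real.quadratic_le_exp_of_nonneg (x := Real.log T) (by linarith)
  rw [Real.exp_log hpos] at this
  nlinarith

/-- the asymptotic formula for the triangle pair sum -/
lemma P_formula (hP : Pts Z x m F C1 T0) {K T h : ℝ} (hK : C1 ≤ K) (hK1 : 1 ≤ K)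
    (hT0 : T0 ≤ T) (hT : Real.exp 4 ≤ T) (hh0 : 1 / Real.log T ≤ h) (hh1 : h ≤ 1) :
    |Pk (Ab F x T) m x h - (h ^ 2 * (2 * (Real.log T / (2 * Real.pi)) *
      (cnt F m (2 * T) - cnt F m T) - (Real.log T / (2 * Real.pi)) ^ 2 * T) +
      T / Real.pi ^ 2 * Real.log (h * Real.log T))| ≤ 49 * K ^ 2 * T := by
  have hexp : (5:ℝ) ≤ Real.exp 4 := by
    have := Real.add_one_le_exp (4:ℝ); linarith
  have hTpos : 0 < T := by linarith
  have hl : 4 ≤ Real.log T := by
    rw [Real.le_log_iff_exp_le hTpos]; exact hT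
  have hhp : 0 < h := lt_of_lt_of_le (by positivity) hh0
  have hpi : 3 < Real.pi := Real.pi_gt_three
  set ℓ := Real.log T with hℓ
  set c := ℓ / (2 * Real.pi) with hc
  have hc0 : 0 ≤ c := by rw [hc]; positivity
  have hcl : c ≤ ℓ := by
    rw [hc, div_le_iff₀ (by positivity)]
    nlinarith
  set g := G (Ab F x T) m x h with hg
  set W := G (F (2 * T + 1)) m x h with hW
  have ig := integrable_G (Ab F x T) m x h
  have iW := integrable_G (F (2 * T + 1)) m x h
  have ig2 := integrable_G_sq (Ab F x T) m x h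
  have iW2 := integrable_G_sq (F (2 * T + 1)) m x h
  have c1 := compare hP hK hK1 hT hhp.le hh1 1 one_ne_zero (by simpa using ig) (by simpa using iW)
  have c2 := compare hP hK hK1 hT hhp.le hh1 2 two_ne_zero ig2 iW2
  simp only [pow_one] at c1
  rw [integral_G _ _ _ _ hhp.le] at c1
  have hM : ∑ i ∈ Ab F x T, m i = cnt F m (2 * T) - cnt F m T := by
    rw [cnt_sub hP (by linarith)]
    rfl
  rw [hM] at c1
  rw [integral_G_sq] at c2
  set M := cnt F m (2 * T) - cnt F m T with hMd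
  rw [← hW] at c1 c2
  have hv := hP.vari T hT0 h hh0 hh1
  have e1 : ∫ t in T..(2 * T), (cnt F m (t + h) - cnt F m t - h / (2 * Real.pi) * Real.log T) ^ 2 =
      ∫ t in T..(2 * T), ((W t ^ 2 - 2 * h * c * W t) + h ^ 2 * c ^ 2) := by
    refine intervalIntegral.integral_congr fun t ht => ?_
    rw [uIcc_of_le (by linarith)] at ht
    rw [cnt_window hP hhp.le hh1 ht.2]
    have e0 : h / (2 * Real.pi) * Real.log T = h * c := by
      rw [hc, ← hℓ]; ring
    rw [e0]
    ring
  have j1 : IntervalIntegrable (fun t => W t ^ 2) volume T (2 * T) := iW2.intervalIntegrable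
  have j2 : IntervalIntegrable (fun t => 2 * h * c * W t) volume T (2 * T) :=
    (iW.const_mul (2 * h * c)).intervalIntegrable
  have e2 : ∫ t in T..(2 * T), ((W t ^ 2 - 2 * h * c * W t) + h ^ 2 * c ^ 2) =
      (∫ t in T..(2 * T), W t ^ 2) - 2 * h * c * (∫ t in T..(2 * T), W t) + T * (h ^ 2 * c ^ 2) := by
    rw [intervalIntegral.integral_add (j1.sub j2) intervalIntegrable_const,
      intervalIntegral.integral_sub j1 j2, intervalIntegral.integral_const_mul,
      intervalIntegral.integral_const, smul_eq_mul]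
    ring
  rw [e1, e2] at hv
  set I1 := ∫ t in T..(2 * T), W t with hI1
  set I2 := ∫ t in T..(2 * T), W t ^ 2 with hI2
  set Λ := Real.log (h * ℓ) with hΛ
  have hsq := log_sq_le hT
  rw [← hℓ] at hsq
  -- multiply hv by T
  have hv2 : |I2 - 2 * h * c * I1 + T * (h ^ 2 * c ^ 2) - T / Real.pi ^ 2 * Λ| ≤ K * T := by
    have h1 : I2 - 2 * h * c * I1 + T * (h ^ 2 * c ^ 2) - T / Real.pi ^ 2 * Λ =
        T * (1 / T * (I2 - 2 * h * c * I1 + T * (h ^ 2 * c ^ 2)) - 1 / Real.pi ^ 2 * Λ) := by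
      field_simp
    rw [h1, abs_mul, abs_of_pos hTpos]
    calc T * _ ≤ T * C1 := mul_le_mul_of_nonneg_left hv hTpos.le
      _ ≤ T * K := mul_le_mul_of_nonneg_left hK hTpos.le
      _ = K * T := by ring
  have hb : (2 * K * ℓ) ^ 2 ≤ 8 * K ^ 2 * T := by
    have : (2 * K * ℓ) ^ 2 = 4 * K ^ 2 * ℓ ^ 2 := by ring
    rw [this]
    nlinarith [sq_nonneg K]
  have hcb : 2 * h * c * (3 * (2 * K * ℓ)) ≤ 24 * K ^ 2 * T := by
    have h1 : 2 * h * c * (3 * (2 * K * ℓ)) ≤ 2 * 1 * ℓ * (3 * (2 * K * ℓ)) := by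
      gcongr
    have h2 : 2 * 1 * ℓ * (3 * (2 * K * ℓ)) = 12 * K * ℓ ^ 2 := by ring
    have h3 : 12 * K * ℓ ^ 2 ≤ 12 * K * (2 * T) := by gcongr
    have h4 : 12 * K * (2 * T) ≤ 24 * K ^ 2 * T := by nlinarith
    linarith
  have hcc : |2 * h * c * (h * M - I1)| ≤ 24 * K ^ 2 * T := by
    rw [abs_mul, abs_of_nonneg (by positivity)]
    exact (mul_le_mul_of_nonneg_left c1 (by positivity)).trans hcb
  have hKK : K * T ≤ K ^ 2 * T := by nlinarith
  have hTK : 0 ≤ K ^ 2 * T := by positivity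
  rw [abs_le] at hv2 hcc c2 ⊢
  obtain ⟨v1, v2⟩ := hv2
  obtain ⟨w1, w2⟩ := hcc
  obtain ⟨z1, z2⟩ := c2
  constructor <;> linarith

lemma goal_eq (F : ℝ → Finset ι) (m x : ι → ℝ) (T h : ℝ) :
    (∑ i ∈ F (2 * T), ∑ j ∈ F (2 * T), m i * m j *
      (if T < x i ∧ T < x j ∧ 0 < x i - x j ∧ x i - x j ≤ h then 1 else 0)) =
    Qk (Ab F x T) m x h := by
  unfold Qk Ab
  rw [Finset.sum_filter]
  refine Finset.sum_congr rfl fun i _ => ?_
  by_cases hi : T < x i
  · rw [if_pos hi, Finset.sum_filter]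
    refine Finset.sum_congr rfl fun j _ => ?_
    by_cases hj : T < x j
    · simp [hi, hj]
    · simp [hj]
  · simp [hi]

end data

/-- the real-variable part -/
lemma real_part {T ℓ η c α K C2 : ℝ} (hT : 0 < T) (hl : 4 ≤ ℓ) (hη : η * ℓ = 1)
    (hK1 : 1 ≤ K) (hC2 : 0 ≤ C2) (hc : c = ℓ / (2 * Real.pi)) (hα : |α - c ^ 2 * T| ≤ K * T * ℓ)
    (P S Q : ℝ → ℝ) (D : ℝ)
    (hP : ∀ h, η ≤ h → h ≤ 1 → |P h - (h ^ 2 * α + T / Real.pi ^ 2 * Real.log (h * ℓ))| ≤ C2 * T)
    (hS1 : ∀ h, η * S h ≤ P (h + η) - P h) (hS2 : ∀ h, P h - P (h - η) ≤ η * S h)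
    (hD : η * D ≤ P η) (hD0 : 0 ≤ D) (hSQ : ∀ h, 0 ≤ h → S h = D + 2 * Q h)
    (hQm : ∀ h h', h ≤ h' → Q h ≤ Q h') (hQ0 : ∀ h, 0 ≤ Q h)
    (hQt : ∀ s, η * Q (s + η) ≤ η * Q s + P (2 * η)) :
    ∀ h, 0 < h → h ≤ 1 → |Q h - c ^ 2 * T * h| ≤ (20 + 20 * K + 20 * C2) * (T * ℓ) := by
  have hl0 : 0 < ℓ := by linarith
  have hη0 : 0 < η := by
    by_contra hcon
    push Not at hcon
    nlinarith
  have hη4 : η ≤ 1 / 4 := by
    by_contra hcon
    push Not at hcon
    nlinarith
  have hpi : 3 < Real.pi := Real.pi_gt_three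
  have hcl : c ^ 2 ≤ ℓ ^ 2 / 36 := by
    rw [hc, div_pow]
    apply div_le_div_of_nonneg_left (by positivity) (by norm_num)
    nlinarith
  have hcT : c ^ 2 * T ≤ T * ℓ ^ 2 / 36 := by nlinarith
  have hc2 : 0 ≤ c ^ 2 * T := by positivity
  have hTl : T ≤ T * ℓ := by nlinarith
  have hTl0 : 0 < T * ℓ := by positivity
  have hηcT : η * (c ^ 2 * T) ≤ T * ℓ / 36 := by
    calc η * (c ^ 2 * T) ≤ η * (T * ℓ ^ 2 / 36) := mul_le_mul_of_nonneg_left hcT hη0.le
      _ = (η * ℓ) * (T * ℓ) / 36 := by ring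
      _ = T * ℓ / 36 := by rw [hη, one_mul]
  have hπT : T / Real.pi ^ 2 ≤ T := by
    apply div_le_self hT.le
    nlinarith
  have hπT0 : 0 ≤ T / Real.pi ^ 2 := by positivity
  obtain ⟨α1, α2⟩ := abs_le.1 hα
  -- upper bound of S
  have up : ∀ h, η ≤ h → h ≤ 1 - η →
      S h ≤ 2 * h * (c ^ 2 * T) + (2 + 3 * K + 2 * C2) * (T * ℓ) := by
    intro h h1 h2
    have hh0 : 0 < h := lt_of_lt_of_le hη0 h1
    have a1 := (abs_le.1 (hP (h + η) (by linarith) (by linarith))).2
    have a2 := (abs_le.1 (hP h h1 (by linarith))).1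
    have hlog : Real.log ((h + η) * ℓ) - Real.log (h * ℓ) ≤ 1 := by
      rw [Real.log_mul (by positivity) hl0.ne', Real.log_mul hh0.ne' hl0.ne',
        add_sub_add_right_eq_sub, ← Real.log_div (by positivity) hh0.ne']
      have h3 : (h + η) / h ≤ 2 := by
        rw [div_le_iff₀ hh0]; linarith
      have h4 := Real.log_le_sub_one_of_pos (show 0 < (h + η) / h by positivity)
      linarith
    have h5 : T / Real.pi ^ 2 * (Real.log ((h + η) * ℓ) - Real.log (h * ℓ)) ≤ T := by
      calc _ ≤ T / Real.pi ^ 2 * 1 := mul_le_mul_of_nonneg_left hlog hπT0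
        _ ≤ T := by linarith
    have h6 : η * S h ≤ (2 * h * η + η ^ 2) * α + T + 2 * (C2 * T) := by
      have := hS1 h
      have e : (h + η) ^ 2 * α - h ^ 2 * α = (2 * h * η + η ^ 2) * α := by ring
      have e2 : T / Real.pi ^ 2 * (Real.log ((h + η) * ℓ) - Real.log (h * ℓ)) =
        T / Real.pi ^ 2 * Real.log ((h + η) * ℓ) - T / Real.pi ^ 2 * Real.log (h * ℓ) := by ring
      linarith
    have h7 : S h ≤ (2 * h + η) * α + T * ℓ + 2 * (C2 * (T * ℓ)) := by
      have := mul_le_mul_of_nonneg_right h6 hl0.le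
      have e1 : η * S h * ℓ = S h := by rw [mul_right_comm, hη, one_mul]
      have e2 : ((2 * h * η + η ^ 2) * α + T + 2 * (C2 * T)) * ℓ =
        (2 * h + η) * α * (η * ℓ) + T * ℓ + 2 * (C2 * (T * ℓ)) := by ring
      rw [e1, e2, hη, mul_one] at this
      exact this
    have h8 : (2 * h + η) * α ≤ (2 * h + η) * (c ^ 2 * T + K * T * ℓ) :=
      mul_le_mul_of_nonneg_left (by linarith) (by linarith)
    have h9 : (2 * h + η) * (K * T * ℓ) ≤ 3 * (K * T * ℓ) :=
      mul_le_mul_of_nonneg_right (by linarith) (by positivity)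
    nlinarith
  -- lower bound of S
  have lo : ∀ h, 2 * η ≤ h → h ≤ 1 →
      2 * h * (c ^ 2 * T) - (1 + 2 * K + 2 * C2) * (T * ℓ) ≤ S h := by
    intro h h1 h2
    have hh0 : 0 < h := by linarith
    have a1 := (abs_le.1 (hP h (by linarith) h2)).1
    have a2 := (abs_le.1 (hP (h - η) (by linarith) (by linarith))).2
    have hlog : Real.log ((h - η) * ℓ) ≤ Real.log (h * ℓ) := by
      apply Real.log_le_log
      · have : 0 < h - η := by linarith
        positivity
      · apply mul_le_mul_of_nonneg_right (by linarith) hl0.le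
    have h5 : T / Real.pi ^ 2 * Real.log ((h - η) * ℓ) ≤ T / Real.pi ^ 2 * Real.log (h * ℓ) :=
      mul_le_mul_of_nonneg_left hlog hπT0
    have h6 : (2 * h * η - η ^ 2) * α - 2 * (C2 * T) ≤ η * S h := by
      have := hS2 h
      have e : h ^ 2 * α - (h - η) ^ 2 * α = (2 * h * η - η ^ 2) * α := by ring
      linarith
    have h7 : (2 * h - η) * α - 2 * (C2 * (T * ℓ)) ≤ S h := by
      have := mul_le_mul_of_nonneg_right h6 hl0.le
      have e1 : η * S h * ℓ = S h := by rw [mul_right_comm, hη, one_mul]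
      have e2 : ((2 * h * η - η ^ 2) * α - 2 * (C2 * T)) * ℓ =
        (2 * h - η) * α * (η * ℓ) - 2 * (C2 * (T * ℓ)) := by ring
      rw [e1, e2, hη, mul_one] at this
      exact this
    have h8 : (2 * h - η) * (c ^ 2 * T - K * T * ℓ) ≤ (2 * h - η) * α :=
      mul_le_mul_of_nonneg_left (by linarith) (by linarith)
    have h9 : (2 * h - η) * (K * T * ℓ) ≤ 2 * (K * T * ℓ) :=
      mul_le_mul_of_nonneg_right (by linarith) (by positivity)
    nlinarith
  -- P at η and 2 η
  have pη : P η ≤ (1 + K + C2) * T := by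
    have a1 := (abs_le.1 (hP η le_rfl (by linarith))).2
    rw [hη, Real.log_one, mul_zero, add_zero] at a1
    have h8 : η ^ 2 * α ≤ η ^ 2 * (c ^ 2 * T + K * T * ℓ) :=
      mul_le_mul_of_nonneg_left (by linarith) (by positivity)
    have h9 : η ^ 2 * (c ^ 2 * T) ≤ T := by
      calc η ^ 2 * (c ^ 2 * T) = η * (η * (c ^ 2 * T)) := by ring
        _ ≤ η * (T * ℓ / 36) := mul_le_mul_of_nonneg_left hηcT hη0.le
        _ = (η * ℓ) * T / 36 := by ring
        _ ≤ T := by rw [hη]; linarith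
    have h10 : η ^ 2 * (K * T * ℓ) ≤ K * T := by
      calc η ^ 2 * (K * T * ℓ) = (η * ℓ) * (η * (K * T)) := by ring
        _ = η * (K * T) := by rw [hη, one_mul]
        _ ≤ 1 * (K * T) := mul_le_mul_of_nonneg_right (by linarith) (by positivity)
        _ = K * T := one_mul _
    nlinarith
  have p2η : P (2 * η) ≤ (5 + 4 * K + C2) * T := by
    have a1 := (abs_le.1 (hP (2 * η) (by linarith) (by linarith))).2
    rw [mul_assoc, hη, mul_one] at a1
    have hlog2 : T / Real.pi ^ 2 * Real.log 2 ≤ T := by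
      calc _ ≤ T / Real.pi ^ 2 * 1 := mul_le_mul_of_nonneg_left (by linarith [Real.log_two_lt_d9]) hπT0
        _ ≤ T := by linarith
    have h8 : (2 * η) ^ 2 * α ≤ (2 * η) ^ 2 * (c ^ 2 * T + K * T * ℓ) :=
      mul_le_mul_of_nonneg_left (by linarith) (by positivity)
    have h9 : (2 * η) ^ 2 * (c ^ 2 * T) ≤ 4 * T := by
      calc (2 * η) ^ 2 * (c ^ 2 * T) = 4 * (η * (η * (c ^ 2 * T))) := by ring
        _ ≤ 4 * (η * (T * ℓ / 36)) := by
          have := mul_le_mul_of_nonneg_left hηcT hη0.le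
          linarith
        _ = 4 * ((η * ℓ) * T / 36) := by ring
        _ ≤ 4 * T := by rw [hη]; linarith
    have h10 : (2 * η) ^ 2 * (K * T * ℓ) ≤ 4 * (K * T) := by
      calc (2 * η) ^ 2 * (K * T * ℓ) = (η * ℓ) * (4 * (η * (K * T))) := by ring
        _ = 4 * (η * (K * T)) := by rw [hη, one_mul]
        _ ≤ 4 * (1 * (K * T)) := by
          have := mul_le_mul_of_nonneg_right (show η ≤ 1 by linarith) (show 0 ≤ K * T by positivity)
          linarith
        _ = 4 * (K * T) := by ring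
    nlinarith
  have hDb : D ≤ (1 + K + C2) * (T * ℓ) := by
    have := mul_le_mul_of_nonneg_right (hD.trans pη) hl0.le
    have e1 : η * D * ℓ = D := by rw [mul_right_comm, hη, one_mul]
    rw [e1] at this
    linarith
  have hKT : 0 ≤ K * (T * ℓ) := by positivity
  have hCT : 0 ≤ C2 * (T * ℓ) := by positivity
  -- upper bound of Q on [η, 1 - η]
  have upQ : ∀ h, η ≤ h → h ≤ 1 - η →
      Q h ≤ h * (c ^ 2 * T) + (1 + 2 * K + C2) * (T * ℓ) := by
    intro h h1 h2
    have a := up h h1 h2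
    rw [hSQ h (by linarith)] at a
    nlinarith
  intro h hh0 hh1
  rw [abs_le]
  constructor
  · by_cases hc2η : 2 * η ≤ h
    · have a := lo h hc2η hh1
      rw [hSQ h hh0.le] at a
      nlinarith
    · push Not at hc2η
      have a := hQ0 h
      have b : h * (c ^ 2 * T) ≤ 2 * η * (c ^ 2 * T) := mul_le_mul_of_nonneg_right hc2η.le hc2
      nlinarith
  · by_cases h1 : h ≤ 1 - η
    · by_cases h2 : η ≤ h
      · have a := upQ h h2 h1
        nlinarith
      · push Not at h2
        have a := upQ η le_rfl (by linarith)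
        have b := hQm h η h2.le
        have d : 0 ≤ c ^ 2 * T * h := by positivity
        nlinarith
    · push Not at h1
      have a := upQ (1 - η) (by linarith) le_rfl
      have b := hQm h 1 hh1
      have d := hQt (1 - η)
      rw [sub_add_cancel] at d
      have e := mul_le_mul_of_nonneg_right (d.trans (add_le_add_right p2η (η * Q (1 - η)))) hl0.le
      have e1 : η * Q 1 * ℓ = Q 1 := by rw [mul_right_comm, hη, one_mul]
      have e2 : (η * Q (1 - η) + (5 + 4 * K + C2) * T) * ℓ =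
        (η * ℓ) * Q (1 - η) + (5 + 4 * K + C2) * (T * ℓ) := by ring
      rw [e1, e2, hη, one_mul] at e
      have f : (1 - η) * (c ^ 2 * T) ≤ h * (c ^ 2 * T) := mul_le_mul_of_nonneg_right h1.le hc2
      nlinarith

/-- **Package NB.** -/
theorem t_NB : S_NB := by
  intro C1 T0
  set K := max C1 1 with hKd
  have hK : C1 ≤ K := le_max_left _ _
  have hK1 : 1 ≤ K := le_max_right _ _
  refine ⟨20 + 20 * K + 20 * (49 * K ^ 2), max T0 (Real.exp 4), by positivity, le_max_left _ _, ?_⟩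
  intro Z x m F hP T hT h hh0 hh1
  have hT0 : T0 ≤ T := (le_max_left _ _).trans hT
  have hT4 : Real.exp 4 ≤ T := (le_max_right _ _).trans hT
  have hTpos : 0 < T := lt_of_lt_of_le (Real.exp_pos 4) hT4
  have hl : 4 ≤ Real.log T := by
    rw [Real.le_log_iff_exp_le hTpos]; exact hT4
  have hl0 : 0 < Real.log T := by linarith
  have hpi : 3 < Real.pi := Real.pi_gt_three
  rw [goal_eq]
  have := real_part (T := T) (ℓ := Real.log T) (η := 1 / Real.log T)
    (c := Real.log T / (2 * Real.pi))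
    (α := 2 * (Real.log T / (2 * Real.pi)) * (cnt F m (2 * T) - cnt F m T) -
      (Real.log T / (2 * Real.pi)) ^ 2 * T) (K := K) (C2 := 49 * K ^ 2) hTpos hl
    (by field_simp) hK1 (by positivity) rfl ?_ (Pk (Ab F x T) m x) (Sk (Ab F x T) m x)
    (Qk (Ab F x T) m x) (Dk (Ab F x T) m x) (fun h h1 h2 => P_formula hP hK hK1 hT0 hT4 h1 h2)
    (fun h => S_le _ _ _ hP.nonneg h _ (by positivity))
    (fun h => le_S _ _ _ hP.nonneg h _)
    (D_le _ _ _ hP.nonneg _ (by positivity)) (D_nonneg _ _ _ hP.nonneg)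
    (fun h hh => S_eq _ _ _ h hh) (fun h h' hh => Q_mono _ _ _ hP.nonneg hh)
    (fun h => Q_nonneg _ _ _ hP.nonneg h)
    (fun s => Q_top _ _ _ hP.nonneg s _ (by positivity)) h hh0 hh1
  · exact this
  · have hb := hP.block T hT0
    have e : 2 * (Real.log T / (2 * Real.pi)) * (cnt F m (2 * T) - cnt F m T) -
        (Real.log T / (2 * Real.pi)) ^ 2 * T - (Real.log T / (2 * Real.pi)) ^ 2 * T =
        (Real.log T / Real.pi) * (cnt F m (2 * T) - cnt F m T - T * Real.log T / (2 * Real.pi)) := by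
      field_simp
      ring
    rw [e, abs_mul, abs_of_pos (by positivity)]
    have h1 : Real.log T / Real.pi ≤ Real.log T := div_le_self hl0.le (by linarith)
    calc Real.log T / Real.pi * |cnt F m (2 * T) - cnt F m T - T * Real.log T / (2 * Real.pi)|
        ≤ Real.log T * (K * T) := by
          apply mul_le_mul h1 (hb.trans (mul_le_mul_of_nonneg_right hK hTpos.le)) (abs_nonneg _) hl0.le
      _ = K * T * Real.log T := by ring

end

end Pool.Agent.U501.MV.NB
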